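import Pool.Agent.H65.MH.Main

/-!
# The Markoff-Hurwitz equations in the cones `|b| < K |a|`
-/

set_option autoImplicit false

namespace Pool.Agent.H65.MH

open Finset

theorem data2 {n : ℕ} (hn : 2 ≤ n) {a b : ℤ} {x : Fin n → ℤ} {m : Fin n}
    (h : Reduced n a b x m) : ∃ (T : Finset (Fin n)) (s : ℤ), T.card + 2 = n ∧ m ∉ T ∧ 1 ≤ s ∧
      s ≤ x m ∧ (∀ i, i ≠ m → x i ≤ s) ∧ 2 * x m ≤ (|a| * ∏ i ∈ T, x i) * s ∧
      ∑ i ∈ T, x i ^ 2 + s ^ 2 + x m ^ 2 - (|a| * ∏ i ∈ T, x i) * s * x m = b ∧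
      ∏ i ∈ univ.erase m, x i = s * ∏ i ∈ T, x i := by
  obtain ⟨h1, h2, h3⟩ := h
  have hc : (univ.erase m).card = n - 1 := by rw [card_erase_of_mem (mem_univ m)]; simp
  have hne : (univ.erase m).Nonempty := by
    rw [← card_pos, hc]; omega
  obtain ⟨j, hj, hjm⟩ := exists_max_image (univ.erase m) x hne
  refine ⟨(univ.erase m).erase j, x j, ?_, ?_, (h1 j).1, (h1 j).2, fun i hi =>
    hjm i (mem_erase.2 ⟨hi, mem_univ i⟩), ?_, ?_, (mul_prod_erase (univ.erase m) x hj).symm⟩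
  · rw [card_erase_of_mem hj, hc]; omega
  · simp
  · rw [← mul_prod_erase (univ.erase m) x hj] at h2
    linarith [mul_assoc |a| (∏ i ∈ (univ.erase m).erase j, x i) (x j),
      mul_comm (∏ i ∈ (univ.erase m).erase j, x i) (x j), h2]
  · rw [← add_sum_erase univ (fun i => x i ^ 2) (mem_univ m),
      ← add_sum_erase (univ.erase m) (fun i => x i ^ 2) hj, ← mul_prod_erase univ x (mem_univ m),
      ← mul_prod_erase (univ.erase m) x hj] at h3
    rw [← h3]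
    ring

theorem small_of_reduced {n : ℕ} (hn : 2 ≤ n) {K : ℕ} {a b : ℤ} (ha : 2 * n * K < |a|)
    (hb1 : -(K * |a|) < b) (hb : b < 0) {x : Fin n → ℤ} {m : Fin n} (h : Reduced n a b x m) :
    ∀ i, i ≠ m → x i * ∏ j ∈ univ.erase m, x j ≤ K := by
  obtain ⟨T, s, hT, hmT, hs, hst, hi, h2, h3, h4⟩ := data2 hn h
  obtain ⟨hA, hB⟩ := core hs hst h2 h3
  obtain ⟨q1, q2⟩ := sum_sq_le T x (fun i _ => (h.1 i).1)
  have hle : ∀ i ∈ T, 1 ≤ x i ∧ x i ≤ s := fun i hi' =>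
    ⟨(h.1 i).1, hi i fun e => hmT (e ▸ hi')⟩
  have hTn : (T.card : ℤ) = n - 2 := by omega
  have hSs : ∑ i ∈ T, x i ^ 2 ≤ ((n : ℤ) - 2) * s ^ 2 := by
    have e : ((n : ℤ) - 2) * s ^ 2 = ∑ i ∈ T, s ^ 2 := by
      rw [sum_const, nsmul_eq_mul, hTn]
    rw [e]
    exact sum_le_sum fun i hi' => pow_le_pow_left₀ (by linarith [(h.1 i).1]) (hle i hi').2 2
  intro i him
  rw [h4]
  obtain ⟨Q, hQ⟩ : ∃ Q, Q = ∏ i ∈ T, x i := ⟨_, rfl⟩
  obtain ⟨w, hw⟩ : ∃ w : ℤ, w = s ^ 2 := ⟨_, rfl⟩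
  obtain ⟨N, hN⟩ : ∃ N : ℤ, N = n := ⟨_, rfl⟩
  obtain ⟨k, hk⟩ : ∃ k : ℤ, k = K := ⟨_, rfl⟩
  obtain ⟨c, hc⟩ : ∃ c : ℤ, c = |a| := ⟨_, rfl⟩
  rw [← hQ] at hB q2 ⊢
  rw [← hw] at hB hSs
  rw [← hN] at hSs ha
  rw [← hk] at ha hb1 ⊢
  rw [← hc] at ha hb1 hB
  have hk0 : 0 ≤ k := by rw [hk]; positivity
  have hN2 : 2 ≤ N := by rw [hN]; exact_mod_cast hn
  have hw1 : 1 ≤ w := by rw [hw]; nlinarith
  have hc0 : 0 < c := by nlinarith [mul_nonneg (by linarith : (0 : ℤ) ≤ N) hk0]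
  have hk1 : 1 ≤ k := by
    by_contra hlt
    have : k = 0 := by omega
    rw [this] at hb1
    linarith
  -- the main inequality
  have m1 : (c * Q - N) * w < k * c := by nlinarith
  have m2 : N ≤ N * k := le_mul_of_one_le_right (by linarith) hk1
  have m3 : c ≤ c * Q := le_mul_of_one_le_right hc0.le q2
  have m4 : c ≤ 2 * (c * Q - N) := by nlinarith
  have m5 : c * w ≤ 2 * (c * Q - N) * w := mul_le_mul_of_nonneg_right m4 (by linarith)
  have m6 : c * w < c * (2 * k) := by nlinarith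
  have m7 : w < 2 * k := lt_of_mul_lt_mul_left m6 hc0.le
  have m8 : Q * w ≤ k := by
    by_contra hlt
    have h5 : k + 1 ≤ Q * w := by omega
    have h6 : c * (k + 1) ≤ c * (Q * w) := mul_le_mul_of_nonneg_left h5 hc0.le
    have h7 : c < N * w := by nlinarith
    have h8 : N * w ≤ N * (2 * k) := mul_le_mul_of_nonneg_left m7.le (by linarith)
    nlinarith
  have hxi := hi i him
  have hQs : 0 ≤ s * Q := mul_nonneg (by linarith) (by linarith)
  calc x i * (s * Q) ≤ s * (s * Q) := mul_le_mul_of_nonneg_right hxi hQs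
    _ = Q * w := by rw [hw]; ring
    _ ≤ k := m8

theorem solvable_of_disc {k : ℕ} {a b : ℤ} (y : Fin k → ℤ)
    (h : IsSquare (a ^ 2 * (∏ i, y i) ^ 2 - 4 * (∑ i, y i ^ 2 - b))) : Solvable (k + 1) a b := by
  obtain ⟨d, hd⟩ := h
  have hpar : (2 : ℤ) ∣ a * (∏ i, y i) - d := by
    have h1 : (2 : ℤ) ∣ (a * (∏ i, y i) - d) * (a * (∏ i, y i) + d) :=
      ⟨2 * (∑ i, y i ^ 2 - b), by linarith⟩
    rcases (Int.prime_two.dvd_or_dvd h1) with h2 | h2
    · exact h2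
    · obtain ⟨c, hc⟩ := h2
      exact ⟨c - d, by linarith⟩
  obtain ⟨t, ht⟩ := hpar
  refine ⟨Fin.cons t y, ?_⟩
  rw [Fin.sum_univ_succ, Fin.prod_univ_succ]
  simp only [Fin.cons_zero, Fin.cons_succ]
  have e : d = a * (∏ i, y i) - 2 * t := by linarith
  rw [e] at hd
  linarith

theorem smallDisc_succ (k K : ℕ) (a b : ℤ) : SmallDisc (k + 1) K a b ↔ ∃ y : Fin k → ℤ,
    (∀ i, 1 ≤ y i ∧ y i * ∏ j, y j ≤ K) ∧
      IsSquare (a ^ 2 * (∏ i, y i) ^ 2 - 4 * (∑ i, y i ^ 2 - b)) := Iff.rfl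

theorem cone_neg {n : ℕ} (hn : 3 ≤ n) {K : ℕ} {a b : ℤ} (hb : b < 0)
    (hb1 : -(K * |a|) < b) (ha : 2 * n * K < |a|) : Solvable n a b ↔ SmallDisc n K a b := by
  obtain ⟨k, rfl⟩ : ∃ k, n = k + 1 := ⟨n - 1, by omega⟩
  rw [smallDisc_succ]
  constructor
  · intro h
    obtain ⟨x, m, h1⟩ := neg_reduced hn hb h
    have h2 := small_of_reduced (by omega) ha hb1 hb h1
    have h3 := h1.2.2
    have e : ∏ j : Fin k, x (m.succAbove j) = ∏ j ∈ univ.erase m, x j := by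
      have h5 := Fin.prod_univ_succAbove x m
      rw [← mul_prod_erase univ x (mem_univ m)] at h5
      have h6 : x m ≠ 0 := by
        have := (h1.1 m).1
        omega
      exact (mul_left_cancel₀ h6 h5).symm
    refine ⟨fun i => x (m.succAbove i), fun i => ⟨(h1.1 _).1, ?_⟩,
      |a| * (∏ i : Fin k, x (m.succAbove i)) - 2 * x m, ?_⟩
    · rw [e]
      exact h2 _ (Fin.succAbove_ne m i)
    · rw [Fin.sum_univ_succAbove _ m, Fin.prod_univ_succAbove _ m] at h3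
      rw [← sq_abs a, ← h3]
      ring
  · rintro ⟨y, -, h⟩
    exact solvable_of_disc y h

theorem cone_nonneg {n : ℕ} (hn : 3 ≤ n) {K : ℕ} {a b : ℤ} (hb : 0 ≤ b) (hbK : b < K * |a|) :
    Solvable n a b ↔ SumSq (n - 1) b ∨ SmallPos n K a b := by
  have : NeZero n := ⟨by omega⟩
  constructor
  · intro h
    obtain ⟨y, hy0, hy⟩ := (nonneg_iff hn hb).1 h
    by_cases hz : ∃ j, y j = 0
    · left
      obtain ⟨j, hj⟩ := hz
      rw [prod_eq_zero (mem_univ j) hj, mul_zero, add_zero] at hy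
      obtain ⟨k, rfl⟩ : ∃ k, n = k + 1 := ⟨n - 1, by omega⟩
      rw [Fin.sum_univ_succAbove _ j, hj] at hy
      exact ⟨fun i => y (j.succAbove i), by simpa using hy⟩
    · right
      refine ⟨y, fun i => ?_, ?_, hy⟩
      · have := hy0 i
        have h4 : y i ≠ 0 := fun e => hz ⟨i, e⟩
        omega
      · have h1 : 0 ≤ ∑ i, y i ^ 2 := sum_nonneg fun i _ => sq_nonneg _
        have h2 : |a| * ∏ i, y i < |a| * K := by linarith [mul_comm (K : ℤ) |a|]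
        exact lt_of_mul_lt_mul_left h2 (abs_nonneg a)
  · rintro (h | ⟨x, hx, -, h⟩)
    · exact solvable_of_critNonneg (sumSq_crit (by omega) a h)
    · exact solvable_of_critNonneg ⟨x, fun i => by linarith [hx i], h⟩

end Pool.Agent.H65.MH
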