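import Mathlib

/-!
# Definitions for the Markoff-Hurwitz equations `x₁² + ... + xₙ² - a x₁ ⋯ xₙ = b`
-/

set_option autoImplicit false

namespace Pool.Agent.H65.MH

open Finset

/-- `x₁² + ... + xₙ² - a x₁ ⋯ xₙ = b` has a solution in integers. -/
def Solvable (n : ℕ) (a b : ℤ) : Prop :=
  ∃ x : Fin n → ℤ, ∑ i, x i ^ 2 - a * ∏ i, x i = b

/-- `b` is a sum of `k` squares of integers. -/
def SumSq (k : ℕ) (b : ℤ) : Prop := ∃ x : Fin k → ℤ, ∑ i, x i ^ 2 = b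

/-- Condition for `b ≥ 0`: a solution of `x₁² + ... + xₙ² + |a| x₁ ⋯ xₙ = b` in integers `xᵢ ≥ 0`
(so all `xᵢ` are at most `√b`). -/
def CritNonneg (n : ℕ) (a b : ℤ) : Prop :=
  ∃ x : Fin n → ℤ, (∀ i, 0 ≤ x i) ∧ ∑ i, x i ^ 2 + |a| * ∏ i, x i = b

/-- A reduced solution of `x₁² + ... + xₙ² - |a| x₁ ⋯ xₙ = b`: all `xᵢ ≥ 1`, and twice the largest
of the `xᵢ` is at most `|a|` times the product of the others. -/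
def Reduced (n : ℕ) (a b : ℤ) (x : Fin n → ℤ) (m : Fin n) : Prop :=
  (∀ i, 1 ≤ x i ∧ x i ≤ x m) ∧ 2 * x m ≤ |a| * ∏ i ∈ univ.erase m, x i ∧
    ∑ i, x i ^ 2 - |a| * ∏ i, x i = b

/-- Condition for `b < 0`: a reduced solution in which the square of every `xᵢ` but the largest one
is at most `n² + n - 3 - b`. -/
def CritNeg (n : ℕ) (a b : ℤ) : Prop :=
  ∃ (x : Fin n → ℤ) (m : Fin n), Reduced n a b x m ∧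
    ∀ i, i ≠ m → x i ^ 2 ≤ (n : ℤ) ^ 2 + n - 3 - b

/-- One condition for all `a` and `b`: for some `n - 1` integers `yᵢ ≥ 0` with
`yᵢ² ≤ n² + n - 3 + |b|` the discriminant `a² (y₁ ⋯ yₙ₋₁)² - 4 (y₁² + ... + yₙ₋₁² - b)` is a
perfect square. -/
def CritDisc (n : ℕ) (a b : ℤ) : Prop :=
  ∃ y : Fin (n - 1) → ℤ, (∀ i, 0 ≤ y i ∧ y i ^ 2 ≤ (n : ℤ) ^ 2 + n - 3 + |b|) ∧
    IsSquare (a ^ 2 * (∏ i, y i) ^ 2 - 4 * (∑ i, y i ^ 2 - b))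

/-- For `n - 1` integers `yᵢ ≥ 1` with `(max yᵢ) y₁ ⋯ yₙ₋₁ ≤ K` the discriminant
`a² (y₁ ⋯ yₙ₋₁)² - 4 (y₁² + ... + yₙ₋₁² - b)` is a perfect square. -/
def SmallDisc (n K : ℕ) (a b : ℤ) : Prop :=
  ∃ y : Fin (n - 1) → ℤ, (∀ i, 1 ≤ y i ∧ y i * ∏ j, y j ≤ K) ∧
    IsSquare (a ^ 2 * (∏ i, y i) ^ 2 - 4 * (∑ i, y i ^ 2 - b))

/-- `b = x₁² + ... + xₙ² + |a| x₁ ⋯ xₙ` for some integers `xᵢ ≥ 1` with `x₁ ⋯ xₙ < K`. -/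
def SmallPos (n K : ℕ) (a b : ℤ) : Prop :=
  ∃ x : Fin n → ℤ, (∀ i, 1 ≤ x i) ∧ ∏ i, x i < K ∧ ∑ i, x i ^ 2 + |a| * ∏ i, x i = b

end Pool.Agent.H65.MH
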