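import Pool.Agent.H65.MH.Defs

/-!
# Solvability of the Markoff-Hurwitz equations `x₁² + ... + xₙ² - a x₁ ⋯ xₙ = b`

For every `n ≥ 3` a complete finite necessary and sufficient condition on `a` and `b`, uniform in all
parameters. The question MP_aff84d_nt is the case `n = 3`.
-/

set_option autoImplicit false

namespace Pool.Agent.H65.MH

open Finset

theorem sum_sq_le {ι : Type} [DecidableEq ι] (s : Finset ι) (x : ι → ℤ) :
    (∀ i ∈ s, 1 ≤ x i) →
    ∑ i ∈ s, x i ^ 2 ≤ (s.card : ℤ) - 1 + (∏ i ∈ s, x i) ^ 2 ∧ 1 ≤ ∏ i ∈ s, x i := by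
  induction s using Finset.induction_on with
  | empty => intro _; simp
  | insert a s ha ih =>
    intro hx
    obtain ⟨h1, h2⟩ := ih (fun i hi => hx i (mem_insert_of_mem hi))
    have h3 := hx a (mem_insert_self _ _)
    rw [sum_insert ha, prod_insert ha, card_insert_of_notMem ha]
    push_cast
    set P := ∏ i ∈ s, x i
    have h4 : 0 ≤ (x a ^ 2 - 1) * (P ^ 2 - 1) := by
      apply mul_nonneg <;> nlinarith
    constructor
    · nlinarith
    · nlinarith

theorem core {A s t S b : ℤ} (hs : 1 ≤ s) (hst : s ≤ t) (ht : 2 * t ≤ A * s)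
    (h : S + s ^ 2 + t ^ 2 - A * s * t = b) : 2 ≤ A ∧ (A - 2) * s ^ 2 ≤ S - b := by
  have hA : 2 ≤ A := by
    by_contra hlt
    have : A ≤ 1 := by omega
    nlinarith
  refine ⟨hA, ?_⟩
  nlinarith [mul_nonneg (sub_nonneg.2 hst) (show 0 ≤ A * s - t - s by linarith)]

theorem descent {n : ℕ} [NeZero n] (a b : ℤ) (N : ℕ) : ∀ x : Fin n → ℤ, (∀ i, 1 ≤ x i) →
    ∑ i, x i ≤ N → ∑ i, x i ^ 2 - |a| * ∏ i, x i = b →
    CritNonneg n a b ∨ ∃ y m, Reduced n a b y m := by
  induction N with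
  | zero =>
    intro x hx hs _
    exfalso
    have h1 : ∑ i : Fin n, (1 : ℤ) ≤ ∑ i, x i := sum_le_sum fun i _ => hx i
    have h2 : 0 < n := Nat.pos_of_ne_zero (NeZero.ne n)
    simp at h1 hs
    omega
  | succ N ih =>
    intro x hx hs h
    obtain ⟨m, hm⟩ := Finite.exists_max x
    have e1 : ∀ y : Fin n → ℤ, ∑ i, y i ^ 2 = y m ^ 2 + ∑ i ∈ univ.erase m, y i ^ 2 := fun y =>
      (add_sum_erase univ (fun i => y i ^ 2) (mem_univ m)).symm
    have e2 : ∀ y : Fin n → ℤ, ∏ i, y i = y m * ∏ i ∈ univ.erase m, y i := fun y =>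
      (mul_prod_erase univ y (mem_univ m)).symm
    have e3 : ∀ y : Fin n → ℤ, ∑ i, y i = y m + ∑ i ∈ univ.erase m, y i := fun y =>
      (add_sum_erase univ y (mem_univ m)).symm
    by_cases hr : 2 * x m ≤ |a| * ∏ i ∈ univ.erase m, x i
    · exact Or.inr ⟨x, m, fun i => ⟨hx i, hm i⟩, hr, h⟩
    · set P := ∏ i ∈ univ.erase m, x i with hP
      have u1 : ∀ c, ∑ i ∈ univ.erase m, (Function.update x m c i) ^ 2 =
          ∑ i ∈ univ.erase m, x i ^ 2 := fun c => sum_congr rfl fun i hi => by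
        rw [Function.update_of_ne (ne_of_mem_erase hi)]
      have u2 : ∀ c, ∏ i ∈ univ.erase m, (Function.update x m c i) = P := fun c =>
        prod_congr rfl fun i hi => by rw [Function.update_of_ne (ne_of_mem_erase hi)]
      have u3 : ∀ c, ∑ i ∈ univ.erase m, (Function.update x m c i) =
          ∑ i ∈ univ.erase m, x i := fun c => sum_congr rfl fun i hi => by
        rw [Function.update_of_ne (ne_of_mem_erase hi)]
      rw [e1, e2, ← hP] at h
      rw [e3] at hs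
      rcases le_or_gt 1 (|a| * P - x m) with h1 | h1
      · refine ih (Function.update x m (|a| * P - x m)) (fun i => ?_) ?_ ?_
        · by_cases hi : i = m
          · subst hi
            simpa using h1
          · rw [Function.update_of_ne hi]
            exact hx i
        · rw [e3, u3, Function.update_self]
          push_cast at hs
          linarith
        · rw [e1, e2, u1, u2, Function.update_self, ← h]
          ring
      · left
        refine ⟨Function.update x m (-(|a| * P - x m)), fun i => ?_, ?_⟩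
        · by_cases hi : i = m
          · subst hi
            rw [Function.update_self]
            linarith
          · rw [Function.update_of_ne hi]
            exact (zero_le_one.trans (hx i))
        · rw [e1, e2, u1, u2, Function.update_self, ← h]
          ring

theorem neg_one_flip {n : ℕ} [NeZero n] (x : Fin n → ℤ) :
    ∃ y : Fin n → ℤ, ∑ i, y i ^ 2 = ∑ i, x i ^ 2 ∧ ∏ i, y i = -∏ i, x i := by
  refine ⟨Function.update x 0 (-x 0), ?_, ?_⟩
  · refine sum_congr rfl fun i _ => ?_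
    by_cases hi : i = 0
    · subst hi; simp
    · rw [Function.update_of_ne hi]
  · rw [← mul_prod_erase univ x (mem_univ 0),
      ← mul_prod_erase univ (Function.update x 0 (-x 0)) (mem_univ 0), Function.update_self]
    rw [prod_congr rfl fun i hi => by rw [Function.update_of_ne (ne_of_mem_erase hi)]]
    ring

/-- The equation with `|a|` and either sign of the product has the same values. -/
theorem solvable_of {n : ℕ} [NeZero n] {a b c : ℤ} (hc : c = a ∨ c = -a) (x : Fin n → ℤ)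
    (h : ∑ i, x i ^ 2 - c * ∏ i, x i = b) : Solvable n a b := by
  rcases hc with rfl | rfl
  · exact ⟨x, h⟩
  · obtain ⟨y, h1, h2⟩ := neg_one_flip x
    exact ⟨y, by rw [h1, h2, ← h]; ring⟩

theorem dichotomy {n : ℕ} [NeZero n] {a b : ℤ} (h : Solvable n a b) :
    CritNonneg n a b ∨ ∃ y m, Reduced n a b y m := by
  obtain ⟨x, hx⟩ := h
  have e1 : ∑ i, |x i| ^ 2 = ∑ i, x i ^ 2 := sum_congr rfl fun i _ => sq_abs _
  have e2 : ∏ i, |x i| = |∏ i, x i| := (abs_prod _ _).symm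
  rcases le_or_gt 0 (a * ∏ i, x i) with h0 | h0
  · have e3 : |a| * ∏ i, |x i| = a * ∏ i, x i := by rw [e2, ← abs_mul, abs_of_nonneg h0]
    by_cases hz : ∃ i, x i = 0
    · obtain ⟨i, hi⟩ := hz
      have hp : ∏ i, |x i| = 0 := prod_eq_zero (mem_univ i) (by simp [hi])
      refine Or.inl ⟨fun i => |x i|, fun i => abs_nonneg _, ?_⟩
      have hp' : ∏ i, x i = 0 := prod_eq_zero (mem_univ i) hi
      rw [hp, e1]
      rw [hp'] at hx
      linarith
    · have hpos : ∀ i, 1 ≤ |x i| := fun i => Int.one_le_abs fun h => hz ⟨i, h⟩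
      refine descent a b (∑ i, |x i|).toNat (fun i => |x i|) hpos ?_ ?_
      · exact Int.self_le_toNat _
      · rw [e1, e3, hx]
  · refine Or.inl ⟨fun i => |x i|, fun i => abs_nonneg _, ?_⟩
    rw [e1, e2, ← abs_mul, abs_of_neg h0]
    linarith

theorem solvable_of_critNonneg {n : ℕ} [NeZero n] {a b : ℤ} (h : CritNonneg n a b) :
    Solvable n a b := by
  obtain ⟨x, -, hx⟩ := h
  refine solvable_of (c := -|a|) ?_ x (by rw [← hx]; ring)
  rcases abs_choice a with h | h <;> rw [h]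
  · right; rfl
  · left; ring

theorem solvable_of_reduced {n : ℕ} [NeZero n] {a b : ℤ} {x : Fin n → ℤ} {m : Fin n}
    (h : Reduced n a b x m) : Solvable n a b :=
  solvable_of (c := |a|) (abs_choice a) x h.2.2

/-- The data of a reduced solution: `t` the largest entry, `s` the second largest, `T` the other
indices. -/
theorem data {n : ℕ} (hn : 2 ≤ n) {a b : ℤ} {x : Fin n → ℤ} {m : Fin n}
    (h : Reduced n a b x m) : ∃ (T : Finset (Fin n)) (s : ℤ), T.card + 2 = n ∧ m ∉ T ∧ 1 ≤ s ∧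
      s ≤ x m ∧ (∀ i, i ≠ m → x i ≤ s) ∧ 2 * x m ≤ (|a| * ∏ i ∈ T, x i) * s ∧
      ∑ i ∈ T, x i ^ 2 + s ^ 2 + x m ^ 2 - (|a| * ∏ i ∈ T, x i) * s * x m = b := by
  obtain ⟨h1, h2, h3⟩ := h
  have hc : (univ.erase m).card = n - 1 := by rw [card_erase_of_mem (mem_univ m)]; simp
  have hne : (univ.erase m).Nonempty := by
    rw [← card_pos, hc]; omega
  obtain ⟨j, hj, hjm⟩ := exists_max_image (univ.erase m) x hne
  have hjm' : j ≠ m := ne_of_mem_erase hj
  refine ⟨(univ.erase m).erase j, x j, ?_, ?_, (h1 j).1, (h1 j).2, fun i hi =>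
    hjm i (mem_erase.2 ⟨hi, mem_univ i⟩), ?_, ?_⟩
  · rw [card_erase_of_mem hj, hc]; omega
  · simp
  · rw [← mul_prod_erase (univ.erase m) x hj] at h2
    linarith [mul_assoc |a| (∏ i ∈ (univ.erase m).erase j, x i) (x j),
      mul_comm (∏ i ∈ (univ.erase m).erase j, x i) (x j), h2]
  · rw [← add_sum_erase univ (fun i => x i ^ 2) (mem_univ m),
      ← add_sum_erase (univ.erase m) (fun i => x i ^ 2) hj, ← mul_prod_erase univ x (mem_univ m),
      ← mul_prod_erase (univ.erase m) x hj] at h3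
    rw [← h3]
    ring

theorem neg_bound {n : ℕ} (hn : 2 ≤ n) {a b : ℤ} (hb : b < 0) {x : Fin n → ℤ} {m : Fin n}
    (h : Reduced n a b x m) :
    (∀ i, i ≠ m → x i ^ 2 ≤ (n : ℤ) ^ 2 + n - 3 - b) ∧ 1 ≤ |a| ∧ |a| ≤ n - b := by
  obtain ⟨T, s, hT, hmT, hs, hst, hi, h2, h3⟩ := data hn h
  obtain ⟨hA, hB⟩ := core hs hst h2 h3
  obtain ⟨q1, q2⟩ := sum_sq_le T x (fun i _ => (h.1 i).1)
  have hSs : ∑ i ∈ T, x i ^ 2 ≤ ((n : ℤ) - 2) * s ^ 2 := by
    have e : ((n : ℤ) - 2) * s ^ 2 = ∑ i ∈ T, s ^ 2 := by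
      rw [sum_const, nsmul_eq_mul]
      congr 1
      omega
    rw [e]
    exact sum_le_sum fun i hi' => pow_le_pow_left₀ (by linarith [(h.1 i).1])
      (hi i fun e => hmT (e ▸ hi')) 2
  have hS0 : 0 ≤ ∑ i ∈ T, x i ^ 2 := sum_nonneg fun i _ => sq_nonneg _
  have hTn : (T.card : ℤ) = n - 2 := by omega
  rw [hTn] at q1
  set Q := ∏ i ∈ T, x i with hQ
  set S := ∑ i ∈ T, x i ^ 2 with hS
  have ha0 := abs_nonneg a
  have ha1 : 1 ≤ |a| := by
    by_contra hlt
    have : |a| = 0 := by omega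
    rw [this] at hA
    simp at hA
  have haA : |a| ≤ |a| * Q := by nlinarith
  have hQA : Q ≤ |a| * Q := by nlinarith
  set A := |a| * Q with hAdef
  have hn' : (2 : ℤ) ≤ n := by exact_mod_cast hn
  have hA3 : 3 ≤ A := by
    by_contra hlt
    have hA2 : A = 2 := by omega
    rw [hA2] at h2 h3
    have he : x m = s := by linarith
    rw [he] at h3
    nlinarith
  have hs2 : 1 ≤ s ^ 2 := by nlinarith
  have hbound : s ^ 2 ≤ (n : ℤ) ^ 2 + n - 3 - b := by
    rcases le_or_gt A n with hAn | hAn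
    · have hQ2 : Q ^ 2 ≤ (n : ℤ) ^ 2 := pow_le_pow_left₀ (by linarith) (hQA.trans hAn) 2
      have h5 : s ^ 2 ≤ (A - 2) * s ^ 2 := le_mul_of_one_le_left (sq_nonneg s) (by linarith)
      linarith
    · have h5 : s ^ 2 ≤ (A - n) * s ^ 2 := le_mul_of_one_le_left (sq_nonneg s) (by linarith)
      have h6 : (A - n) * s ^ 2 ≤ -b := by linarith
      nlinarith
  refine ⟨fun i him => ?_, ha1, ?_⟩
  · exact (pow_le_pow_left₀ (by linarith [(h.1 i).1]) (hi i him) 2).trans hbound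
  · rcases le_or_gt A n with hAn | hAn
    · linarith
    · have h5 : (A - n) ≤ (A - n) * s ^ 2 := le_mul_of_one_le_right (by linarith) hs2
      linarith

theorem sumSq_crit {n : ℕ} (hn : 1 ≤ n) (a : ℤ) {b : ℤ} (h : SumSq (n - 1) b) :
    CritNonneg n a b := by
  obtain ⟨k, rfl⟩ : ∃ k, n = k + 1 := ⟨n - 1, by omega⟩
  simp only [Nat.add_sub_cancel] at h
  obtain ⟨x, hx⟩ := h
  refine ⟨Fin.cons 0 (fun i => |x i|), fun i => ?_, ?_⟩
  · refine Fin.cases ?_ (fun j => ?_) i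
    · simp
    · simp
  · rw [Fin.sum_univ_succ, Fin.prod_univ_succ]
    simp [hx]

theorem sumSq_of_four {k : ℕ} (hk : 4 ≤ k) {b : ℤ} (hb : 0 ≤ b) : SumSq k b := by
  obtain ⟨l, rfl⟩ : ∃ l, k = 4 + l := ⟨k - 4, by omega⟩
  obtain ⟨p, q, r, s, h⟩ := Nat.sum_four_squares b.toNat
  refine ⟨Fin.append ![(p : ℤ), q, r, s] (fun _ : Fin l => 0), ?_⟩
  rw [Fin.sum_univ_add]
  simp only [Fin.append_left, Fin.append_right]
  have h1 : ((p ^ 2 + q ^ 2 + r ^ 2 + s ^ 2 : ℕ) : ℤ) = b := by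
    rw [h]; exact Int.toNat_of_nonneg hb
  push_cast at h1
  simp [Fin.sum_univ_four]
  linarith

theorem crit_of_reduced {n : ℕ} (hn : 3 ≤ n) {a b : ℤ} (hb : 0 ≤ b) {x : Fin n → ℤ} {m : Fin n}
    (h : Reduced n a b x m) : CritNonneg n a b := by
  rcases le_or_gt 5 n with h5 | h5
  · exact sumSq_crit (by omega) a (sumSq_of_four (by omega) hb)
  obtain ⟨T, s, hT, hmT, hs, hst, hi, h2, h3⟩ := data (by omega) h
  obtain ⟨hA, hB⟩ := core hs hst h2 h3
  by_cases hA2 : |a| * ∏ i ∈ T, x i = 2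
  · rw [hA2] at h2 h3
    have he : x m = s := by linarith
    rw [he] at h3
    refine ⟨fun i => if i ∈ T then x i else 0, fun i => ?_, ?_⟩
    · dsimp only
      split_ifs
      · linarith [(h.1 i).1]
      · exact le_rfl
    · have p0 : ∏ i, (if i ∈ T then x i else 0) = 0 :=
        prod_eq_zero (mem_univ m) (if_neg hmT)
      have s0 : ∑ i, (if i ∈ T then x i else 0) ^ 2 = ∑ i ∈ T, x i ^ 2 := by
        simp [ite_pow]
      rw [p0, s0]
      nlinarith
  · have hA3 : 3 ≤ |a| * ∏ i ∈ T, x i := by omega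
    have hs' : s ^ 2 ≤ (|a| * ∏ i ∈ T, x i - 2) * s ^ 2 := by nlinarith
    have hle : ∀ i ∈ T, 1 ≤ x i ∧ x i ≤ s := fun i hi' =>
      ⟨(h.1 i).1, hi i fun e => hmT (e ▸ hi')⟩
    have hn34 : n = 3 ∨ n = 4 := by omega
    rcases hn34 with rfl | rfl
    · obtain ⟨k, hk⟩ := card_eq_one.1 (show T.card = 1 by omega)
      have h1 := hle k (by simp [hk])
      rw [hk, sum_singleton] at hB
      rw [hk] at hs'
      have hb0 : b = 0 := by nlinarith
      exact ⟨0, by simp, by simp [hb0]⟩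
    · obtain ⟨k, l, hkl, hk⟩ := card_eq_two.1 (show T.card = 2 by omega)
      have h1 := hle k (by simp [hk])
      have h1' := hle l (by simp [hk])
      rw [hk, sum_pair hkl, prod_pair hkl] at hB
      rw [hk, prod_pair hkl] at hs' hA3
      have k2 : x k ^ 2 ≤ s ^ 2 := pow_le_pow_left₀ (by linarith) h1.2 2
      have l2 : x l ^ 2 ≤ s ^ 2 := pow_le_pow_left₀ (by linarith) h1'.2 2
      have hbk : b ≤ x k ^ 2 := by linarith
      have hbl : b ≤ x l ^ 2 := by linarith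
      have hs2 : 1 ≤ s ^ 2 := by nlinarith
      have hA4 : |a| * (x k * x l) ≤ 4 := by
        by_contra hlt
        have : 5 ≤ |a| * (x k * x l) := by omega
        nlinarith
      have hkl1 : 1 ≤ x k * x l := by nlinarith
      have ha1 : 1 ≤ |a| := by
        by_contra hlt
        have h0 : |a| = 0 := by have := abs_nonneg a; omega
        rw [h0] at hA3
        simp at hA3
      have hQ4 : x k * x l ≤ 4 := by nlinarith
      have hb4 : b ≤ 4 := by
        rcases le_total (x k) (x l) with h6 | h6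
        · nlinarith
        · nlinarith
      refine sumSq_crit (by norm_num) a ?_
      interval_cases b
      · exact ⟨![0, 0, 0], by simp [Fin.sum_univ_three]⟩
      · exact ⟨![1, 0, 0], by simp [Fin.sum_univ_three]⟩
      · exact ⟨![1, 1, 0], by simp [Fin.sum_univ_three]⟩
      · exact ⟨![1, 1, 1], by simp [Fin.sum_univ_three]⟩
      · exact ⟨![2, 0, 0], by simp [Fin.sum_univ_three]⟩

theorem critNonneg_nonneg {n : ℕ} {a b : ℤ} (h : CritNonneg n a b) : 0 ≤ b := by
  obtain ⟨x, h0, rfl⟩ := h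
  have h1 : 0 ≤ ∑ i, x i ^ 2 := sum_nonneg fun i _ => sq_nonneg _
  have h2 : 0 ≤ |a| * ∏ i, x i := mul_nonneg (abs_nonneg a) (prod_nonneg fun i _ => h0 i)
  linarith

theorem nonneg_iff {n : ℕ} (hn : 3 ≤ n) {a b : ℤ} (hb : 0 ≤ b) :
    Solvable n a b ↔ CritNonneg n a b := by
  have : NeZero n := ⟨by omega⟩
  refine ⟨fun h => ?_, solvable_of_critNonneg⟩
  rcases dichotomy h with h1 | ⟨y, m, h1⟩
  · exact h1
  · exact crit_of_reduced hn hb h1

theorem neg_reduced {n : ℕ} (hn : 3 ≤ n) {a b : ℤ} (hb : b < 0) (h : Solvable n a b) :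
    ∃ y m, Reduced n a b y m := by
  have : NeZero n := ⟨by omega⟩
  rcases dichotomy h with h1 | h1
  · exact absurd (critNonneg_nonneg h1) (not_le.2 hb)
  · exact h1

/-- If the second largest entry of a reduced solution is at least `2`, then `4 |a| ≤ n + 6 - b`. -/
theorem wide {n : ℕ} (hn : 2 ≤ n) {a b : ℤ} (hb : b < 0) {x : Fin n → ℤ} {m : Fin n}
    (h : Reduced n a b x m) (hab : n + 6 - 4 * |a| < b) : IsSquare (a ^ 2 - 4 * (n - 1 - b)) := by
  obtain ⟨T, s, hT, hmT, hs, hst, hi, h2, h3⟩ := data hn h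
  obtain ⟨hA, hB⟩ := core hs hst h2 h3
  obtain ⟨q1, q2⟩ := sum_sq_le T x (fun i _ => (h.1 i).1)
  have hle : ∀ i ∈ T, 1 ≤ x i ∧ x i ≤ s := fun i hi' =>
    ⟨(h.1 i).1, hi i fun e => hmT (e ▸ hi')⟩
  have hTn : (T.card : ℤ) = n - 2 := by omega
  have hSs : ∑ i ∈ T, x i ^ 2 ≤ ((n : ℤ) - 2) * s ^ 2 := by
    have e : ((n : ℤ) - 2) * s ^ 2 = ∑ i ∈ T, s ^ 2 := by
      rw [sum_const, nsmul_eq_mul, hTn]
    rw [e]
    exact sum_le_sum fun i hi' => pow_le_pow_left₀ (by linarith [(h.1 i).1]) (hle i hi').2 2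
  rcases eq_or_lt_of_le hs with h1 | h1
  · -- all entries but one are `1`
    have hone : ∀ i ∈ T, x i = 1 := fun i hi' => by have := hle i hi'; omega
    have e1 : ∑ i ∈ T, x i ^ 2 = n - 2 := by
      rw [sum_congr rfl fun i hi' => by rw [hone i hi'], one_pow, sum_const, nsmul_eq_mul, hTn,
        mul_one]
    have e2 : ∏ i ∈ T, x i = 1 := by
      rw [prod_congr rfl hone, prod_const_one]
    rw [e1, e2, ← h1] at h3
    refine ⟨|a| - 2 * x m, ?_⟩
    have h5 := sq_abs a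
    nlinarith
  · exfalso
    rw [hTn] at q1
    set Q := ∏ i ∈ T, x i with hQ
    set S := ∑ i ∈ T, x i ^ 2 with hS
    have hm0 : (0 : ℤ) ≤ n - 2 := by have : (2 : ℤ) ≤ n := by exact_mod_cast hn
                                     linarith
    obtain ⟨M, hM⟩ : ∃ M : ℤ, M = n - 2 := ⟨_, rfl⟩
    obtain ⟨β, hβ⟩ : ∃ β : ℤ, β = -b := ⟨_, rfl⟩
    obtain ⟨w, hw⟩ : ∃ w : ℤ, w = s ^ 2 := ⟨_, rfl⟩
    rw [← hM] at q1 hSs hm0
    rw [← hw] at hSs hB
    have hβ0 : 0 < β := by linarith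
    have hw4 : 4 ≤ w := by nlinarith
    have hQw : 0 < Q * w := by nlinarith
    -- the assumption gives a lower bound for `4 |a| Q w`
    have k1 : (M + 8 + β) * (Q * w) < 4 * |a| * (Q * w) := by
      apply mul_lt_mul_of_pos_right _ hQw
      linarith
    have k2 : |a| * Q * w ≤ S + 2 * w + β := by linarith
    have k3 : 4 * S + 8 * w + 4 * β ≤ (M + 8 + β) * (Q * w) := by
      have m1 : 0 ≤ M * (w - 4) := mul_nonneg hm0 (by linarith)
      have m2 : 0 ≤ β * (w - 4) := mul_nonneg hβ0.le (by linarith)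
      rcases le_or_gt 4 Q with hQ4 | hQ4
      · have n1 : 0 ≤ (Q - 4) * (M * w) := mul_nonneg (by linarith) (mul_nonneg hm0 (by linarith))
        have n2 : 0 ≤ (Q - 4) * w := mul_nonneg (by linarith) (by linarith)
        have n3 : 0 ≤ (Q - 4) * (β * w) :=
          mul_nonneg (by linarith) (mul_nonneg hβ0.le (by linarith))
        nlinarith
      · have hQ123 : Q = 1 ∨ Q = 2 ∨ Q = 3 := by omega
        rcases hQ123 with e | e | e <;> rw [e] at q1 ⊢ <;> nlinarith
    nlinarith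

theorem solvable_of_isSquare {n : ℕ} (hn : 1 ≤ n) {a b : ℤ}
    (h : IsSquare (a ^ 2 - 4 * (n - 1 - b))) : Solvable n a b := by
  obtain ⟨d, hd⟩ := h
  obtain ⟨k, rfl⟩ : ∃ k, n = k + 1 := ⟨n - 1, by omega⟩
  have hpar : (2 : ℤ) ∣ a - d := by
    have h1 : (2 : ℤ) ∣ (a - d) * (a + d) :=
      ⟨2 * (((k + 1 : ℕ) : ℤ) - 1 - b), by linarith⟩
    rcases (Int.prime_two.dvd_or_dvd h1) with h2 | h2
    · exact h2
    · obtain ⟨c, hc⟩ := h2
      exact ⟨c - d, by linarith⟩
  obtain ⟨t, ht⟩ := hpar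
  refine ⟨Fin.cons t (fun _ => 1), ?_⟩
  rw [Fin.sum_univ_succ, Fin.prod_univ_succ]
  simp only [Fin.cons_zero, Fin.cons_succ, one_pow, sum_const, card_univ, Fintype.card_fin,
    prod_const_one, mul_one, nsmul_eq_mul]
  have e : d = a - 2 * t := by linarith
  rw [e] at hd
  push_cast at hd ⊢
  linarith

theorem solvable_two_two {n : ℕ} (hn : 2 ≤ n) (a : ℤ) : Solvable n a (n + 6 - 4 * |a|) := by
  have : NeZero n := ⟨by omega⟩
  obtain ⟨k, hk⟩ : ∃ k, n = k + 1 + 1 := ⟨n - 2, by omega⟩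
  subst hk
  refine solvable_of (c := |a|) (abs_choice a) (Fin.cons 2 (Fin.cons 2 (fun _ => 1))) ?_
  rw [Fin.sum_univ_succ, Fin.prod_univ_succ]
  simp only [Fin.cons_zero, Fin.cons_succ]
  rw [Fin.sum_univ_succ, Fin.prod_univ_succ]
  simp only [Fin.cons_zero, Fin.cons_succ, one_pow, sum_const, card_univ, Fintype.card_fin,
    prod_const_one, mul_one, nsmul_eq_mul]
  push_cast
  ring

theorem small_iff {n : ℕ} (hn : 3 ≤ n) {a b : ℤ} (hb : 0 ≤ b) (h2 : b < n + |a|) :
    Solvable n a b ↔ SumSq (n - 1) b := by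
  have : NeZero n := ⟨by omega⟩
  refine ⟨fun h => ?_, fun h => solvable_of_critNonneg (sumSq_crit (by omega) a h)⟩
  obtain ⟨y, hy0, hy⟩ := (nonneg_iff hn hb).1 h
  by_cases hz : ∃ j, y j = 0
  · obtain ⟨j, hj⟩ := hz
    rw [prod_eq_zero (mem_univ j) hj, mul_zero, add_zero] at hy
    obtain ⟨k, rfl⟩ : ∃ k, n = k + 1 := ⟨n - 1, by omega⟩
    rw [Fin.sum_univ_succAbove _ j, hj] at hy
    exact ⟨fun i => y (j.succAbove i), by simpa using hy⟩
  · exfalso
    have hpos : ∀ i ∈ (univ : Finset (Fin n)), 1 ≤ y i := fun i _ => by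
      have := hy0 i
      have h4 : y i ≠ 0 := fun e => hz ⟨i, e⟩
      omega
    have hp := (sum_sq_le univ y hpos).2
    have hsum : ∑ i : Fin n, (1 : ℤ) ≤ ∑ i, y i ^ 2 := sum_le_sum fun i hi => by
      have := hpos i hi
      nlinarith
    simp at hsum
    have := abs_nonneg a
    nlinarith

theorem critDisc_succ (k : ℕ) (a b : ℤ) : CritDisc (k + 1) a b ↔ ∃ y : Fin k → ℤ,
    (∀ i, 0 ≤ y i ∧ y i ^ 2 ≤ ((k + 1 : ℕ) : ℤ) ^ 2 + ((k + 1 : ℕ) : ℤ) - 3 + |b|) ∧
      IsSquare (a ^ 2 * (∏ i, y i) ^ 2 - 4 * (∑ i, y i ^ 2 - b)) := Iff.rfl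

theorem disc_iff {n : ℕ} (hn : 3 ≤ n) (a b : ℤ) : Solvable n a b ↔ CritDisc n a b := by
  have hn' : (3 : ℤ) ≤ n := by exact_mod_cast hn
  obtain ⟨k, rfl⟩ : ∃ k, n = k + 1 := ⟨n - 1, by omega⟩
  rw [critDisc_succ]
  constructor
  · intro h
    rcases le_or_gt 0 b with hb | hb
    · obtain ⟨x, hx0, hx⟩ := (nonneg_iff hn hb).1 h
      have hle : ∀ i, x i ^ 2 ≤ b := fun i => by
        have h1 : x i ^ 2 ≤ ∑ i, x i ^ 2 :=
          single_le_sum (f := fun i => x i ^ 2) (fun i _ => sq_nonneg _) (mem_univ i)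
        have h2 : 0 ≤ |a| * ∏ i, x i :=
          mul_nonneg (abs_nonneg a) (prod_nonneg fun i _ => hx0 i)
        linarith
      refine ⟨fun i => x i.succ, fun i => ⟨hx0 _, ?_⟩, |a| * (∏ i : Fin k, x i.succ) + 2 * x 0, ?_⟩
      · have := hle i.succ
        rw [abs_of_nonneg hb]
        nlinarith
      · rw [Fin.sum_univ_succ, Fin.prod_univ_succ] at hx
        rw [← sq_abs a, ← hx]
        ring
    · obtain ⟨x, m, h1⟩ := neg_reduced hn hb h
      have h2 := (neg_bound (by omega) hb h1).1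
      have h3 := h1.2.2
      refine ⟨fun i => x (m.succAbove i), fun i => ⟨by linarith [(h1.1 (m.succAbove i)).1], ?_⟩,
        |a| * (∏ i : Fin k, x (m.succAbove i)) - 2 * x m, ?_⟩
      · have := h2 (m.succAbove i) (Fin.succAbove_ne m i)
        rw [abs_of_neg hb]
        linarith
      · rw [Fin.sum_univ_succAbove _ m, Fin.prod_univ_succAbove _ m] at h3
        rw [← sq_abs a, ← h3]
        ring
  · rintro ⟨y, -, d, hd⟩
    have hpar : (2 : ℤ) ∣ a * (∏ i, y i) - d := by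
      have h1 : (2 : ℤ) ∣ (a * (∏ i, y i) - d) * (a * (∏ i, y i) + d) :=
        ⟨2 * (∑ i, y i ^ 2 - b), by linarith⟩
      rcases (Int.prime_two.dvd_or_dvd h1) with h2 | h2
      · exact h2
      · obtain ⟨c, hc⟩ := h2
        exact ⟨c - d, by linarith⟩
    obtain ⟨t, ht⟩ := hpar
    refine ⟨Fin.cons t y, ?_⟩
    rw [Fin.sum_univ_succ, Fin.prod_univ_succ]
    simp only [Fin.cons_zero, Fin.cons_succ]
    have e : d = a * (∏ i, y i) - 2 * t := by linarith
    rw [e] at hd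
    linarith

end Pool.Agent.H65.MH
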